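import Pool.Agent.helper96.S5.SpecR

/-!
# Row s5:RSM (project S5, MP_0b485e_lc)
-/

set_option autoImplicit false

namespace S5

open PF

noncomputable section

open Classical

theorem RSM_label (B : BD) (k : ℕ) (hB : B.Gd k) (t : ℕ) : (B.th k t).2 < B.lam := by
  obtain ⟨n, hn⟩ := tkc_surj (([] : List ℕ), 0)
  have hadm : B.tA k t (hst (B.tA k) t) n := by
    refine ⟨?_, ?_⟩
    · rw [hn]; exact hB.lam
    · intro i hi
      rw [hn] at hi
      exact absurd hi (by simp)
  have h0 : sel (B.tA k) t ≠ 0 := amo_ne_zero ⟨n, hadm⟩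
  obtain ⟨m, hm⟩ := Nat.exists_eq_succ_of_ne_zero h0
  have h1 := sel_succ hm
  have h2 : B.th k t = tkc m := by
    unfold BD.th
    rw [hm]
    rfl
  rw [h2]
  exact h1.1

theorem RSM_vl (B : BD) (k : ℕ) (hB : B.Gd k) (u i : ℕ) : B.vl k u i ≤ 2 := by
  unfold BD.vl
  split_ifs
  · exact hB.dc2 _ _ _
  · exact Nat.zero_le _

theorem RSM_row : RSM_stmt := by
  intro B k hB g g' l hg
  obtain ⟨h1, h2, u0, h3⟩ := hg
  refine ⟨?_, ?_, ?_⟩
  · intro hg' hlen ⟨i, hi, hlt, heq⟩
    obtain ⟨h1', h2', -⟩ := hg'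
    obtain ⟨u, hu, hfit⟩ := h2' u0
    apply h3 u hu
    obtain ⟨⟨hp, hl, hle⟩, hv⟩ := hfit
    refine ⟨⟨hp, hl, hlen.trans hle⟩, ?_, i, hi, ?_, ?_⟩
    · intro j hj
      rw [hv j (lt_of_lt_of_le hj hlen)]
      have a1 := h1 j hj
      have a2 := h1' j (lt_of_lt_of_le hj hlen)
      constructor
      · intro h
        by_contra h'
        exact (a2.2 (a1.1 h')) h
      · intro h
        by_contra h'
        exact (a1.2 (a2.1 h')) h
    · rw [hv i (lt_of_lt_of_le hi hlen)]
      exact hlt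
    · intro i' hi'
      rw [hv i' (lt_of_lt_of_le (hi'.trans hi) hlen)]
      exact (heq i' hi').symm
  · intro i
    by_cases hi : i < g.length
    · obtain ⟨u, -, hfit⟩ := h2 0
      rw [← hfit.2 i hi]
      exact RSM_vl B k hB u i
    · have : ent g i = 0 := by
        unfold ent
        rw [List.getD_eq_default _ _ (not_lt.1 hi)]
      rw [this]
      exact Nat.zero_le _
  · obtain ⟨u, -, hfit⟩ := h2 0
    rw [← hfit.1.2.1]
    exact RSM_label B k hB _

end

end S5
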