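import Pool.Agent.helper96.S5.SpecR

/-!
# Row s5:RSU (project S5, MP_0b485e_lc)
-/

set_option autoImplicit false

namespace S5

open PF

noncomputable section

open Classical

theorem RSU_row (hRSM : RSM_stmt) : RSU_stmt := by
  intro B k hB g g' l hg hg' hlen
  by_contra hne
  have hex : ∃ i, i < g.length ∧ ent g i ≠ ent g' i := by
    by_contra hno
    push_neg at hno
    apply hne
    apply List.ext_getElem hlen
    intro i h1 h2
    have := hno i h1
    unfold ent at this
    rw [List.getD_eq_getElem _ _ h1, List.getD_eq_getElem _ _ h2] at this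
    exact this
  have hspec := Nat.find_spec hex
  have hmin : ∀ i', i' < Nat.find hex → ent g i' = ent g' i' := by
    intro i' hi'
    by_contra h
    exact Nat.find_min hex hi' ⟨hi'.trans hspec.1, h⟩
  rcases lt_or_gt_of_ne hspec.2 with h | h
  · exact (hRSM B k hB g g' l hg).1 hg' hlen.le ⟨_, hspec.1, h, hmin⟩
  · exact (hRSM B k hB g' g l hg').1 hg hlen.ge ⟨_, hlen ▸ hspec.1, h, fun i' hi' => (hmin i' hi').symm⟩

end

end S5
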