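import Pool.Agent.helper96.S5.SpecR

/-!
# Row s5:VLX (project S5, MP_0b485e_lc)

The entries of the right strings stabilise one after the other: if the entries before `j` are constant, then
the entry `j` cannot increase with the length of the right string (RSM).
-/

set_option autoImplicit false

namespace S5

open PF

noncomputable section

open Classical

/-- the entries stabilise -/
theorem VLX_ex (hRSX : RSX_stmt) (hRSM : RSM_stmt) (B : BD) (k : ℕ) (hB : B.Gd k) (l : ℕ)
    (hl : l < B.lam) (j : ℕ) :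
    ∃ (v : ℕ → ℕ) (n0 : ℕ), ∀ g, B.RS k g l → n0 ≤ g.length → ∀ i < j, ent g i = v i := by
  induction j with
  | zero => exact ⟨fun _ => 0, 0, fun g _ _ i hi => absurd hi (Nat.not_lt_zero i)⟩
  | succ j ih =>
    obtain ⟨v, n0, hv⟩ := ih
    -- the least value of the entry `j` among the long right strings
    obtain ⟨g1, hg1l, hg1⟩ := hRSX B k hB l hl (max n0 (j + 1))
    have hex : ∃ g, B.RS k g l ∧ max n0 (j + 1) ≤ g.length := ⟨g1, hg1, hg1l.ge⟩
    have hex2 : ∃ w, ∃ g, (B.RS k g l ∧ max n0 (j + 1) ≤ g.length) ∧ ent g j = w := by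
      obtain ⟨g, hg⟩ := hex
      exact ⟨ent g j, g, hg, rfl⟩
    obtain ⟨g, ⟨hg, hgl⟩, hgw⟩ := Nat.find_spec hex2
    have hmin : ∀ g', B.RS k g' l → max n0 (j + 1) ≤ g'.length → ent g j ≤ ent g' j := by
      intro g' h1 h2
      rw [hgw]
      exact Nat.find_min' hex2 ⟨g', ⟨h1, h2⟩, rfl⟩
    refine ⟨fun i => if i = j then ent g j else v i, g.length, ?_⟩
    intro g' hg' hgl' i hi
    have hn0 : n0 ≤ g.length := (le_max_left _ _).trans hgl
    have hj : j < g.length := lt_of_lt_of_le (Nat.lt_succ_self j) ((le_max_right _ _).trans hgl)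
    by_cases hij : i = j
    · subst hij
      simp only [if_pos]
      refine le_antisymm ?_ (hmin g' hg' (hgl.trans hgl'))
      by_contra hlt
      push_neg at hlt
      refine (hRSM B k hB g g' l hg).1 hg' hgl' ⟨i, hj, hlt, ?_⟩
      intro i' hi'
      rw [hv g hg hn0 i' hi', hv g' hg' (hn0.trans hgl') i' hi']
    · simp only [if_neg hij]
      exact hv g' hg' (hn0.trans hgl') i (by omega)

theorem VLX_pre (g0 g : List ℕ) (h : g0 <+: g) (i : ℕ) (hi : i < g0.length) : ent g0 i = ent g i := by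
  obtain ⟨t, rfl⟩ := h
  unfold ent
  rw [List.getD_eq_getElem _ _ hi, List.getD_eq_getElem _ _ (by rw [List.length_append]; omega),
    List.getElem_append_left hi]

theorem VLX_row (hRSX : RSX_stmt) (hRSM : RSM_stmt) (hRSU : RSU_stmt) : VLX_stmt := by
  have _ := hRSU
  intro B k hB l hl i
  have huniq : ∀ (k : ℕ), B.Gd k → ∀ j v v', B.lv k l j v → B.lv k l j v' → v = v' := by
    intro k hB j v v' ⟨n0, h0⟩ ⟨n1, h1⟩
    obtain ⟨g, hgl, hg⟩ := hRSX B k hB l hl (max n0 n1)
    rw [← h0 g hg (hgl ▸ le_max_left _ _), ← h1 g hg (hgl ▸ le_max_right _ _)]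
  refine ⟨?_, huniq k hB i, ?_⟩
  · intro hC
    obtain ⟨v, n0, hv⟩ := VLX_ex hRSX hRSM B k hB l hl (i + 1)
    obtain ⟨g, hgl, hg⟩ := hRSX B k hB l hl (max n0 (i + 1))
    have h1 : ent g i = v i := hv g hg (hgl ▸ le_max_left _ _) i (Nat.lt_succ_self i)
    have h2 : ent g i ≤ 2 := (hRSM B k hB g g l hg).2.1 i
    have h3 : ent g i ≠ 0 := (hg.1 i (by rw [hgl]; exact lt_of_lt_of_le (Nat.lt_succ_self i) (le_max_right _ _))).2 hC
    have hlv : B.lv k l i (v i) := ⟨n0, fun g' hg' hl' => hv g' hg' hl' i (Nat.lt_succ_self i)⟩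
    have h4 : v i = 1 ∨ v i = 2 := by omega
    rcases h4 with h | h
    · left; rw [← h]; exact hlv
    · right; rw [← h]; exact hlv
  · intro k' hB' hS v hv
    obtain ⟨a, n0, ha⟩ := VLX_ex hRSX hRSM B k hB l hl (i + 1)
    obtain ⟨b, n1, hb⟩ := VLX_ex hRSX hRSM B k' hB' l hl (i + 1)
    -- one direction of the comparison
    have hcmp : ∀ (k k' : ℕ), B.Gd k → B.Gd k' → (∀ g0 : List ℕ, g0.length = i + 1 →
        (∃ g, B.RS k g l ∧ g0 <+: g) → ∃ g, B.RS k' g l ∧ g0 <+: g) →
        ∀ (a b : ℕ → ℕ) (n0 n1 : ℕ),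
        (∀ g, B.RS k g l → n0 ≤ g.length → ∀ j < i + 1, ent g j = a j) →
        (∀ g, B.RS k' g l → n1 ≤ g.length → ∀ j < i + 1, ent g j = b j) →
        ∀ j < i + 1, (∀ j' < j, a j' = b j') → ¬ a j < b j := by
      intro k k' hB hB' hS a b n0 n1 ha hb j hj heq hlt
      obtain ⟨g, hgl, hg⟩ := hRSX B k hB l hl (max n0 (i + 1))
      have hgl1 : n0 ≤ g.length := hgl ▸ le_max_left _ _
      have hgl2 : i + 1 ≤ g.length := hgl ▸ le_max_right _ _
      have hg0l : (g.take (i + 1)).length = i + 1 := by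
        rw [List.length_take]; omega
      obtain ⟨g2, hg2, hpre⟩ := hS (g.take (i + 1)) hg0l ⟨g, hg, List.take_prefix _ _⟩
      have hg2l : i + 1 ≤ g2.length := by
        have := hpre.length_le
        omega
      obtain ⟨g3, hg3l, hg3⟩ := hRSX B k' hB' l hl (max n1 g2.length)
      have hent : ∀ j' < i + 1, ent g2 j' = a j' := by
        intro j' hj'
        rw [← VLX_pre _ _ hpre j' (by rw [hg0l]; exact hj'),
          VLX_pre _ _ (List.take_prefix (i + 1) g) j' (by rw [hg0l]; exact hj')]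
        exact ha g hg hgl1 j' hj'
      refine (hRSM B k' hB' g2 g3 l hg2).1 hg3 (hg3l ▸ le_max_right _ _)
        ⟨j, lt_of_lt_of_le hj hg2l, ?_, ?_⟩
      · rw [hent j hj, hb g3 hg3 (hg3l ▸ le_max_left _ _) j hj]
        exact hlt
      · intro j' hj'
        rw [hent j' (hj'.trans hj), hb g3 hg3 (hg3l ▸ le_max_left _ _) j' (hj'.trans hj)]
        exact heq j' hj'
    have heq : ∀ n, ∀ j < n, j < i + 1 → a j = b j := by
      intro n
      induction n with
      | zero => intro j hj; exact absurd hj (Nat.not_lt_zero j)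
      | succ n ih =>
        intro j hj hji
        have hprev : ∀ j' < j, a j' = b j' := fun j' hj' => ih j' (by omega) (hj'.trans hji)
        have h1 := hcmp k k' hB hB' (fun g0 hg0 => (hS g0 hg0).1) a b n0 n1 ha hb j hji hprev
        have h2 := hcmp k' k hB' hB (fun g0 hg0 => (hS g0 hg0).2) b a n1 n0 hb ha j hji
          (fun j' hj' => (hprev j' hj').symm)
        omega
    have hva : v = a i := huniq k hB i v (a i) hv
      ⟨n0, fun g hg hl' => ha g hg hl' i (Nat.lt_succ_self i)⟩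
    rw [hva, heq (i + 1) i (Nat.lt_succ_self i) (Nat.lt_succ_self i)]
    exact ⟨n1, fun g hg hl' => hb g hg hl' i (Nat.lt_succ_self i)⟩

end

end S5
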